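import Mathlib
import Pool.Agent.H474R2.PG.Defs

set_option autoImplicit false

/-! # Project PW (helper307), task T3b (helper890) -/

namespace Pool.Agent.H890R2.PW

open Polynomial Finset Pool.Agent.H474R2.PG

theorem totient_le_rho (e p : ℕ) (hp : p.Prime) (he : e ∣ p - 1) :
    Nat.totient e ≤ rho (cyclotomic e ℤ) p := by
  haveI : Fact p.Prime := ⟨hp⟩
  have hp1 : 0 < p - 1 := Nat.sub_pos_of_lt hp.one_lt
  have he0 : 0 < e := Nat.pos_of_dvd_of_pos he hp1
  have hne : ((e : ℕ) : ZMod p) ≠ 0 := by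
    intro h
    rw [ZMod.natCast_eq_zero_iff] at h
    have h1 := Nat.le_of_dvd hp1 (h.trans he)
    omega
  haveI : NeZero ((e : ℕ) : ZMod p) := ⟨hne⟩
  have hcard : Fintype.card (ZMod p)ˣ = p - 1 := ZMod.card_units p
  have hord : ((Finset.univ : Finset (ZMod p)ˣ).filter (fun a => orderOf a = e)).card
      = Nat.totient e := by
    apply IsCyclic.card_orderOf_eq_totient
    rw [hcard]
    exact he
  rw [← hord]
  unfold rho
  apply Finset.card_le_card_of_injOn (fun x : (ZMod p)ˣ => ((x : ZMod p)).val)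
  · intro x hx
    simp only [Finset.coe_filter, Finset.mem_univ, true_and, Set.mem_setOf_eq] at hx
    simp only [Finset.coe_filter, Finset.mem_range, Set.mem_setOf_eq]
    refine ⟨ZMod.val_lt _, ?_⟩
    have hprim : IsPrimitiveRoot ((x : (ZMod p)ˣ) : ZMod p) e := by
      rw [IsPrimitiveRoot.coe_units_iff]
      rw [← hx]
      exact IsPrimitiveRoot.orderOf x
    have hroot : IsRoot (cyclotomic e (ZMod p)) (x : ZMod p) :=
      isRoot_cyclotomic_iff.mpr hprim
    rw [← ZMod.intCast_zmod_eq_zero_iff_dvd]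
    have h2 : ((eval (((x : ZMod p).val : ℕ) : ℤ) (cyclotomic e ℤ) : ℤ) : ZMod p)
        = eval (x : ZMod p) (cyclotomic e (ZMod p)) := by
      have hn : ((((x : ZMod p).val : ℕ) : ℤ) : ZMod p) = (x : ZMod p) := by
        rw [Int.cast_natCast, ZMod.natCast_zmod_val]
      have h3 := Polynomial.eval_intCast_map (Int.castRingHom (ZMod p)) (cyclotomic e ℤ)
        (((x : ZMod p).val : ℕ) : ℤ)
      rw [map_cyclotomic_int e (ZMod p), hn] at h3
      rw [h3]
      rfl
    rw [h2]
    exact hroot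
  · intro x _ y _ hxy
    have h1 : ((x : (ZMod p)ˣ) : ZMod p) = ((y : (ZMod p)ˣ) : ZMod p) :=
      ZMod.val_injective p hxy
    exact Units.ext h1

theorem gcd_le_sum_rho (d p : ℕ) (hd : 1 ≤ d) (hp : p.Prime) :
    Nat.gcd d (p - 1) ≤ ∑ e ∈ d.divisors, rho (cyclotomic e ℤ) p := by
  have hsub : (Nat.gcd d (p - 1)).divisors ⊆ d.divisors :=
    Nat.divisors_subset_of_dvd (by omega) (Nat.gcd_dvd_left _ _)
  calc Nat.gcd d (p - 1) = ∑ e ∈ (Nat.gcd d (p - 1)).divisors, Nat.totient e :=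
        (Nat.sum_totient _).symm
    _ ≤ ∑ e ∈ (Nat.gcd d (p - 1)).divisors, rho (cyclotomic e ℤ) p := by
        apply Finset.sum_le_sum
        intro e he
        apply totient_le_rho e p hp
        exact (Nat.dvd_of_mem_divisors he).trans (Nat.gcd_dvd_right _ _)
    _ ≤ ∑ e ∈ d.divisors, rho (cyclotomic e ℤ) p :=
        Finset.sum_le_sum_of_subset hsub

end Pool.Agent.H890R2.PW
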